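import Pool.Agent.R370.US.Defs

/-!
# Operators acting by scalars on the graded pieces
-/

open CategoryTheory AlgebraicGeometry

universe u v

namespace Pool.Agent.R370.NK

open Pool.Agent.H914 Pool.Agent.TH720.LB Pool.Agent.R370.US VarClass Obj WeilCohomology

section Alg

variable {K : Type*} [Field K] {V : Type*} [AddCommGroup V] [Module K V]

/-- `φ` is the multiplication by `g i` on `gr i`, for all `i`. -/
def ActsBy (gr : ℕ → Submodule K V) (g : ℕ → K) (φ : Module.End K V) : Prop :=
  ∀ i, ∀ a ∈ gr i, φ a = g i • a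

/-- The degrees `i` and `j` cannot be told apart on varieties of dimension `n` by the values of `F`
in the degrees `i + 2 s` and `j + 2 s`, for `s ≤ m`, of varieties of dimension `n + m`, nor by the
values in the degrees shifted in the same way from the dual degrees `2 n - i` and `2 n - j`. -/
def Alike (F : ℕ → ℕ → K) (n i j : ℕ) : Prop :=
  ∀ m s, s ≤ m → F (n + m) (i + 2 * s) = F (n + m) (j + 2 * s) ∧
    F (n + m) (2 * n - i + 2 * s) = F (n + m) (2 * n - j + 2 * s)

/-- `q` is a period of `f`. -/
def IsPeriod (f : ℤ → K) (q : ℤ) : Prop := ∀ x, f (x + q) = f x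

/-- The value in degree `i` in dimension `n` is `f (i - n)`. -/
def weightFun (f : ℤ → K) (n i : ℕ) : K := f ((i : ℤ) - n)

open scoped Classical in
/-- The function which is `1` on the `j` with `r j` and `0` on the other ones. -/
noncomputable def indic (K : Type*) [Field K] (r : ℕ → Prop) (j : ℕ) : K := if r j then 1 else 0

end Alg

variable {k : Type u} [Field k] {𝒱 : VarClass k} {ops : CycleOps 𝒱}

/-- The operator on `H(X)` which is the multiplication by `g i` on `H^i(X)` is algebraic: it is a
linear combination, with coefficients in the coefficient field of the cohomology theory, of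
operators induced by cycles of codimension `dim X` on `X × X`. -/
def AlgFun (W : WeilCohomology.{u, v} ops) (X : 𝒱.Obj) (g : ℕ → W.K) : Prop :=
  ∃ φ, SpanAlg W X 0 φ ∧ ActsBy (W.gr X) g φ

/-- For all `i ≤ 2 dim X` the projector onto the sum of the `H^j(X)` with `r i j` is algebraic. -/
def KunnethUpTo (W : WeilCohomology.{u, v} ops) (X : 𝒱.Obj) (r : ℕ → ℕ → Prop) : Prop :=
  ∀ i ≤ 2 * X.dim, AlgFun W X (indic W.K (r i))

/-- The Künneth conjecture modulo `p`: for all `i ≤ 2 dim X` the projector onto the sum of the
`H^j(X)` with `j ≡ i` modulo `p` is algebraic. -/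
def KunnethMod (W : WeilCohomology.{u, v} ops) (X : 𝒱.Obj) (p : ℕ) : Prop :=
  KunnethUpTo W X fun i j => i ≡ j [MOD p]

/-- The operator which acts on `H^i(X × P m)` by `F (dim X + m) i` is algebraic. -/
def OnProduct (W : WeilCohomology.{u, v} ops) (P : ℕ → 𝒱.Obj) (F : ℕ → ℕ → W.K) (X : 𝒱.Obj)
    (m : ℕ) : Prop :=
  AlgFun W (X.prod (P m)) (F (X.dim + m))

end Pool.Agent.R370.NK
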