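import Pool.Agent.R370.NK.Defs
import Pool.Agent.R370.US.Iff

/-!
# The algebra of functions which give algebraic operators
-/

open CategoryTheory AlgebraicGeometry Finset

universe u v

namespace Pool.Agent.R370.NK

open Pool.Agent.H914 Pool.Agent.W534 Pool.Agent.TH720.LB Pool.Agent.R370.US VarClass Obj
  WeilCohomology

variable {k : Type u} [Field k] {𝒱 : VarClass k} {ops : CycleOps 𝒱}
  {W : WeilCohomology.{u, v} ops} {X : 𝒱.Obj} {g g' : ℕ → W.K}

lemma algFun_iff : AlgFun W X g ↔ ∃ φ ∈ KOp W X X 0, ActsBy (W.gr X) g φ :=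
  exists_congr fun _ => and_congr_left fun _ => spanAlg_iff

lemma AlgFun.congr (hg : AlgFun W X g) (h : ∀ i ≤ 2 * X.dim, g i = g' i) : AlgFun W X g' := by
  obtain ⟨φ, hφ, ha⟩ := hg
  refine ⟨φ, hφ, fun i a hai => ?_⟩
  by_cases hi : i ≤ 2 * X.dim
  · rw [ha i a hai, h i hi]
  · rw [W.gr_eq_bot X i (by omega)] at hai
    rw [(Submodule.mem_bot _).1 hai, map_zero, smul_zero]

lemma algFun_const (c : W.K) : AlgFun W X fun _ => c := by
  refine algFun_iff.2 ⟨c • LinearMap.id, Submodule.smul_mem _ _ (KOp.id X), fun i a _ => ?_⟩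
  rw [LinearMap.smul_apply, LinearMap.id_apply]

lemma AlgFun.add (hg : AlgFun W X g) (hg' : AlgFun W X g') :
    AlgFun W X fun i => g i + g' i := by
  obtain ⟨φ, hφ, ha⟩ := algFun_iff.1 hg
  obtain ⟨ψ, hψ, hb⟩ := algFun_iff.1 hg'
  refine algFun_iff.2 ⟨φ + ψ, Submodule.add_mem _ hφ hψ, fun i a hai => ?_⟩
  rw [LinearMap.add_apply, ha i a hai, hb i a hai, add_smul]

lemma AlgFun.mul (hg : AlgFun W X g) (hg' : AlgFun W X g') :
    AlgFun W X fun i => g i * g' i := by
  obtain ⟨φ, hφ, ha⟩ := algFun_iff.1 hg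
  obtain ⟨ψ, hψ, hb⟩ := algFun_iff.1 hg'
  refine algFun_iff.2 ⟨φ ∘ₗ ψ, KOp.cast (KOp.comp hφ hψ) (by norm_num), fun i a hai => ?_⟩
  rw [LinearMap.comp_apply, hb i a hai, map_smul, ha i a hai, smul_smul, mul_comm]

lemma AlgFun.smul (c : W.K) (hg : AlgFun W X g) : AlgFun W X fun i => c * g i :=
  (algFun_const c).mul hg

lemma AlgFun.prod_fun {ι : Type*} (s : Finset ι) {G : ι → ℕ → W.K}
    (hG : ∀ t ∈ s, AlgFun W X (G t)) : AlgFun W X fun i => ∏ t ∈ s, G t i := by
  classical
  induction s using Finset.induction_on with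
  | empty => simpa using algFun_const (W := W) (X := X) 1
  | insert a s ha ih =>
    simp only [Finset.prod_insert ha]
    exact (hG a (Finset.mem_insert_self a s)).mul
      (ih fun t ht => hG t (Finset.mem_insert_of_mem ht))

lemma AlgFun.sum_fun {ι : Type*} (s : Finset ι) {G : ι → ℕ → W.K}
    (hG : ∀ t ∈ s, AlgFun W X (G t)) : AlgFun W X fun i => ∑ t ∈ s, G t i := by
  classical
  induction s using Finset.induction_on with
  | empty => simpa using algFun_const (W := W) (X := X) 0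
  | insert a s ha ih =>
    simp only [Finset.sum_insert ha]
    exact (hG a (Finset.mem_insert_self a s)).add
      (ih fun t ht => hG t (Finset.mem_insert_of_mem ht))

/-- The transposed operator. -/
lemma AlgFun.dual (hg : AlgFun W X g) : AlgFun W X fun i => g (2 * X.dim - i) := by
  obtain ⟨φ, hφ, ha⟩ := algFun_iff.1 hg
  obtain ⟨ψ, hψ, hadj⟩ := KOp.exists_adjoint hφ
  refine algFun_iff.2 ⟨ψ, KOp.cast hψ (by ring), fun i b hb => ?_⟩
  by_cases hi : i ≤ 2 * X.dim
  · rw [← sub_eq_zero]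
    apply nondeg_right
    intro a
    refine gr_induction (W.isInternal X)
      (p := fun a => W.tr X (a * (ψ b - g (2 * X.dim - i) • b)) = 0) ?_ ?_ a
    · intro j a haj
      rw [mul_sub, map_sub, ← hadj, ha j a haj, mul_smul_comm, smul_mul_assoc, map_smul, map_smul]
      by_cases hij : j + i = 2 * X.dim
      · rw [show 2 * X.dim - i = j by omega, sub_self]
      · rw [W.tr_eq_zero (W.mul_mem haj hb) hij, smul_zero, smul_zero, sub_zero]
    · intro a a' h1 h2
      rw [add_mul, map_add, h1, h2, add_zero]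
  · rw [W.gr_eq_bot X i (by omega)] at hb
    rw [(Submodule.mem_bot _).1 hb, map_zero, smul_zero]

section

variable {P : 𝒱.Obj} {h : P.Cycles} (hP : IsProjLike W P h)
include hP

lemma AlgFun.coef (hg : AlgFun W (X.prod P) g) {s : ℕ} (hs : s ≤ P.dim) :
    AlgFun W X fun i => g (i + 2 * s) := by
  obtain ⟨φ, hφ, ha⟩ := algFun_iff.1 hg
  refine algFun_iff.2 ⟨coe W X h s ∘ₗ φ ∘ₗ inc W X h s,
    KOp.cast ((opSys_K W).coef hP hφ hs s) (by ring), fun i a hai => ?_⟩
  have h1 : inc W X h s a ∈ W.gr (X.prod P) (i + 2 * s) :=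
    qop_mem (qop_inc hP s) hai (by push_cast; ring)
  rw [LinearMap.comp_apply, LinearMap.comp_apply, ha _ _ h1, map_smul, coe_inc hP hs, if_pos rfl]

lemma AlgFun.assemble (hg : ∀ s ≤ P.dim, AlgFun W X fun i => g (i + 2 * s)) :
    AlgFun W (X.prod P) g := by
  have h0 : ∀ s, ∃ φ ∈ KOp W X X 0, s ≤ P.dim → ActsBy (W.gr X) (fun i => g (i + 2 * s)) φ := by
    intro s
    by_cases hs : s ≤ P.dim
    · obtain ⟨φ, hφ, ha⟩ := algFun_iff.1 (hg s hs)
      exact ⟨φ, hφ, fun _ => ha⟩
    · exact ⟨0, Submodule.zero_mem _, fun h => absurd h hs⟩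
  choose φ hφ ha using h0
  refine algFun_iff.2 ⟨∑ s ∈ range (P.dim + 1), inc W X h s ∘ₗ φ s ∘ₗ coe W X h s, ?_, ?_⟩
  · refine Submodule.sum_mem _ fun s hs => ?_
    have hs' : s ≤ P.dim := by simp at hs; omega
    exact KOp.cast (KOp.comp (qop_inc hP s).kop (KOp.comp (hφ s) (qop_coe hP hs').kop)) (by ring)
  · intro j y hy
    have h1 : ∀ s ∈ range (P.dim + 1), (inc W X h s ∘ₗ φ s ∘ₗ coe W X h s) y =
        g j • inc W X h s (coe W X h s y) := by
      intro s hs
      have hs' : s ≤ P.dim := by simp at hs; omega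
      rw [LinearMap.comp_apply, LinearMap.comp_apply]
      by_cases hj : 2 * s ≤ j
      · have h2 : coe W X h s y ∈ W.gr X (j - 2 * s) := qop_mem (qop_coe hP hs') hy (by omega)
        rw [ha s hs' _ _ h2, map_smul]
        beta_reduce
        rw [Nat.sub_add_cancel hj]
      · rw [qop_mem_neg (qop_coe hP hs') hy (by omega), map_zero, map_zero, smul_zero]
    rw [LinearMap.sum_apply, Finset.sum_congr rfl h1, ← Finset.smul_sum]
    congr 1
    exact decomp hP y

end

end Pool.Agent.R370.NK
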