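import Pool.Agent.R370.NK.Fun

/-!
# The classification of the universal operators which are scalars on the graded pieces
-/

open CategoryTheory AlgebraicGeometry Finset

universe u v

namespace Pool.Agent.R370.NK

open Pool.Agent.H914 Pool.Agent.W534 Pool.Agent.TH720.LB Pool.Agent.R370.US VarClass Obj
  WeilCohomology

section Alg

variable {K : Type*} [Field K] {F : ℕ → ℕ → K} {n i j l : ℕ}

lemma alike_refl (F : ℕ → ℕ → K) (n i : ℕ) : Alike F n i i := fun _ _ _ => ⟨rfl, rfl⟩

lemma Alike.symm (h : Alike F n i j) : Alike F n j i := fun m s hs =>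
  ⟨(h m s hs).1.symm, (h m s hs).2.symm⟩

lemma Alike.trans (h : Alike F n i j) (h' : Alike F n j l) : Alike F n i l := fun m s hs =>
  ⟨(h m s hs).1.trans (h' m s hs).1, (h m s hs).2.trans (h' m s hs).2⟩

/-- The functions in which degrees which are not alike differ. -/
def tst (F : ℕ → ℕ → K) (n m s : ℕ) (b : Bool) (i : ℕ) : K :=
  F (n + m) ((if b then i else 2 * n - i) + 2 * s)

lemma exists_tst (h : ¬ Alike F n i j) :
    ∃ m s, s ≤ m ∧ ∃ b, tst F n m s b i ≠ tst F n m s b j := by
  unfold Alike at h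
  push Not at h
  obtain ⟨m, s, hs, h⟩ := h
  refine ⟨m, s, hs, ?_⟩
  by_cases h1 : F (n + m) (i + 2 * s) = F (n + m) (j + 2 * s)
  · exact ⟨false, by simpa [tst] using h h1⟩
  · exact ⟨true, by simpa [tst] using h1⟩

lemma exists_bound (F : ℕ → ℕ → K) (n : ℕ) : ∃ M, ∀ i ≤ 2 * n, ∀ j ≤ 2 * n, ¬ Alike F n i j →
    ∃ m ≤ M, ∃ s ≤ m, ∃ b, tst F n m s b i ≠ tst F n m s b j := by
  have h0 : ∀ i j, ∃ m, ¬ Alike F n i j → ∃ s ≤ m, ∃ b, tst F n m s b i ≠ tst F n m s b j := by
    intro i j
    by_cases h : Alike F n i j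
    · exact ⟨0, fun h' => absurd h h'⟩
    · obtain ⟨m, s, hs, hb⟩ := exists_tst h
      exact ⟨m, fun _ => ⟨s, hs, hb⟩⟩
  choose μ hμ using h0
  refine ⟨(range (2 * n + 1)).sup fun i => (range (2 * n + 1)).sup (μ i), fun i hi j hj h => ?_⟩
  refine ⟨μ i j, ?_, hμ i j h⟩
  exact (Finset.le_sup (f := μ i) (Finset.mem_range.2 (by omega : j < 2 * n + 1))).trans
    (Finset.le_sup (f := fun i => (range (2 * n + 1)).sup (μ i))
      (Finset.mem_range.2 (by omega : i < 2 * n + 1)))

lemma indic_of {r : ℕ → Prop} (h : r j) : indic K r j = 1 := by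
  unfold indic; exact if_pos h

lemma indic_not {r : ℕ → Prop} (h : ¬ r j) : indic K r j = 0 := by
  unfold indic; exact if_neg h

end Alg

variable {k : Type u} [Field k] {𝒱 : VarClass k} {ops : CycleOps 𝒱}
  {W : WeilCohomology.{u, v} ops} {X : 𝒱.Obj} {g g' : ℕ → W.K}

/-- A function which is constant on the classes of a relation is algebraic if the projectors onto
the classes are. -/
lemma algFun_of_upTo {r : ℕ → ℕ → Prop} (hrefl : ∀ i, r i i) (hsymm : ∀ i j, r i j → r j i)
    (htrans : ∀ i j l, r i j → r j l → r i l) (hK : KunnethUpTo W X r)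
    (hg : ∀ i ≤ 2 * X.dim, ∀ j ≤ 2 * X.dim, r i j → g i = g j) : AlgFun W X g := by
  classical
  set T := range (2 * X.dim + 1) with hT
  set c : ℕ → W.K := fun i => ((T.filter fun j => r i j).card : W.K) with hc
  have h1 : AlgFun W X fun l => ∑ i ∈ T, (g i * (c i)⁻¹) * indic W.K (r i) l :=
    AlgFun.sum_fun T fun i hi => (hK i (by rw [hT, Finset.mem_range] at hi; omega)).smul _
  refine h1.congr fun l hl => ?_
  have hlT : l ∈ T := Finset.mem_range.2 (by omega)
  have h2 : ∀ i ∈ T, (g i * (c i)⁻¹) * indic W.K (r i) l =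
      if r l i then g l * (c l)⁻¹ else 0 := by
    intro i hi
    have hi' : i ≤ 2 * X.dim := by rw [hT, Finset.mem_range] at hi; omega
    by_cases hil : r i l
    · rw [indic_of hil, if_pos (hsymm _ _ hil), mul_one, hg i hi' l hl hil]
      congr 2
      simp only [hc]
      congr 2
      ext j
      simp only [Finset.mem_filter]
      exact and_congr_right fun _ => ⟨fun h => htrans _ _ _ (hsymm _ _ hil) h,
        fun h => htrans _ _ _ hil h⟩
    · rw [indic_not hil, if_neg fun h => hil (hsymm _ _ h), mul_zero]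
  rw [Finset.sum_congr rfl h2, ← Finset.sum_filter, Finset.sum_const, nsmul_eq_mul]
  have h3 : ((T.filter fun i => r l i).card : W.K) ≠ 0 := by
    rw [Nat.cast_ne_zero]
    exact (Finset.card_pos.2 ⟨l, Finset.mem_filter.2 ⟨hlT, hrefl l⟩⟩).ne'
  change ((T.filter fun i => r l i).card : W.K) *
    (g l * ((T.filter fun i => r l i).card : W.K)⁻¹) = g l
  field_simp

/-- The projector onto a class is algebraic if there are algebraic functions in which the degrees
of different classes differ. -/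
lemma upTo_of_tests {r : ℕ → ℕ → Prop}
    (hsep : ∀ i ≤ 2 * X.dim, ∀ j ≤ 2 * X.dim, ¬ r i j → ∃ u : ℕ → W.K, AlgFun W X u ∧ u i ≠ u j ∧
      ∀ l, r i l → u i = u l) : KunnethUpTo W X r := by
  classical
  intro i hi
  have h0 : ∀ j, ∃ u : ℕ → W.K, AlgFun W X u ∧
      (j ≤ 2 * X.dim → ¬ r i j → u i ≠ u j ∧ ∀ l, r i l → u i = u l) := by
    intro j
    by_cases h : j ≤ 2 * X.dim ∧ ¬ r i j
    · obtain ⟨u, hu, h1, h2⟩ := hsep i hi j h.1 h.2
      exact ⟨u, hu, fun _ _ => ⟨h1, h2⟩⟩
    · exact ⟨fun _ => 0, algFun_const 0, fun h1 h2 => absurd ⟨h1, h2⟩ h⟩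
  choose u hu hu' using h0
  set T := (range (2 * X.dim + 1)).filter fun j => ¬ r i j with hT
  have h1 : AlgFun W X fun l => ∏ j ∈ T, (u j i - u j j)⁻¹ * (u j l + - u j j) :=
    AlgFun.prod_fun T fun j _ => ((hu j).add (algFun_const _)).smul _
  refine h1.congr fun l hl => ?_
  by_cases hil : r i l
  · rw [indic_of hil]
    refine Finset.prod_eq_one fun j hj => ?_
    rw [hT, Finset.mem_filter, Finset.mem_range] at hj
    obtain ⟨h2, h3⟩ := hu' j (by omega) hj.2
    rw [← h3 l hil, ← sub_eq_add_neg, inv_mul_cancel₀ (sub_ne_zero.2 h2)]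
  · rw [indic_not hil]
    refine Finset.prod_eq_zero (i := l) ?_ ?_
    · rw [hT, Finset.mem_filter, Finset.mem_range]
      exact ⟨by omega, hil⟩
    · rw [add_neg_cancel, mul_zero]

section

variable {P : ℕ → 𝒱.Obj} {h : ∀ m, (P m).Cycles} (hdim : ∀ m, (P m).dim = m)
  (hproj : ∀ m, IsProjLike W (P m) (h m))
include hdim hproj

lemma algFun_tst {F : ℕ → ℕ → W.K} {m s : ℕ} (hF : OnProduct W P F X m) (hs : s ≤ m) (b : Bool) :
    AlgFun W X (tst F X.dim m s b) := by
  have h1 := AlgFun.coef (hproj m) hF (s := s) (by rw [hdim]; exact hs)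
  cases b with
  | true => exact h1.congr fun i _ => by simp [tst]
  | false => exact h1.dual.congr fun i _ => by simp [tst]

/-- The general classification for one variety. -/
theorem general (F : ℕ → ℕ → W.K) (n : ℕ) : ∃ M : ℕ, ∀ X : 𝒱.Obj, X.dim = n → List.TFAE [
    ∀ m ≤ M, OnProduct W P F X m,
    ∀ m, OnProduct W P F X m,
    KunnethUpTo W X (Alike F n)] := by
  obtain ⟨M, hM⟩ := exists_bound F n
  refine ⟨M, fun X hX => ?_⟩
  subst hX
  tfae_have 2 → 1 := fun h m _ => h m
  tfae_have 1 → 3 := by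
    intro h1
    refine upTo_of_tests fun i hi j hj hij => ?_
    obtain ⟨m, hm, s, hs, b, hb⟩ := hM i hi j hj hij
    refine ⟨tst F X.dim m s b, algFun_tst hdim hproj (h1 m hm) hs b, hb, fun l hl => ?_⟩
    cases b with
    | true => simpa [tst] using (hl m s hs).1
    | false => simpa [tst] using (hl m s hs).2
  tfae_have 3 → 2 := by
    intro h3 m
    refine AlgFun.assemble (hproj m) fun s hs => ?_
    rw [hdim] at hs
    exact algFun_of_upTo (alike_refl F _) (fun _ _ h => h.symm) (fun _ _ _ h h' => h.trans h') h3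
      fun i _ j _ hij => (hij m s hs).1
  tfae_finish

omit hdim hproj in
/-- The Künneth conjecture modulo zero. -/
lemma kunnethMod_iff {p : ℕ} (hp : p = 0 ∨ 2 * X.dim < p) :
    KunnethMod W X p ↔ KunnethSpan W X := by
  have h0 : ∀ i ≤ 2 * X.dim, ∀ j ≤ 2 * X.dim, (i ≡ j [MOD p] ↔ j = i) := by
    intro i hi j hj
    constructor
    · intro h
      rcases hp with rfl | hp
      · exact (Nat.modEq_zero_iff.1 h).symm
      · exact (Nat.ModEq.eq_of_lt_of_lt h (by omega) (by omega)).symm
    · rintro rfl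
      exact Nat.ModEq.refl _
  have h1 : ∀ i ≤ 2 * X.dim, (AlgFun W X (indic W.K fun j => i ≡ j [MOD p]) ↔
      ∃ Q, SpanAlg W X 0 Q ∧ IsProjector (W.gr X) i Q) := by
    intro i hi
    constructor
    · rintro ⟨φ, hφ, ha⟩
      refine ⟨φ, hφ, fun j a haj => ?_⟩
      by_cases hj : j ≤ 2 * X.dim
      · rw [ha j a haj]
        by_cases hij : j = i
        · rw [if_pos hij, indic_of ((h0 i hi j hj).2 hij), one_smul]
        · rw [if_neg hij, indic_not fun h' => hij ((h0 i hi j hj).1 h'), zero_smul]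
      · rw [W.gr_eq_bot X j (by omega)] at haj
        rw [(Submodule.mem_bot _).1 haj, map_zero, ite_self]
    · rintro ⟨Q, hQ, ha⟩
      refine ⟨Q, hQ, fun j a haj => ?_⟩
      by_cases hj : j ≤ 2 * X.dim
      · rw [ha j a haj]
        by_cases hij : j = i
        · rw [if_pos hij, indic_of ((h0 i hi j hj).2 hij), one_smul]
        · rw [if_neg hij, indic_not fun h' => hij ((h0 i hi j hj).1 h'), zero_smul]
      · rw [W.gr_eq_bot X j (by omega)] at haj
        rw [(Submodule.mem_bot _).1 haj, map_zero, smul_zero]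
  exact forall₂_congr h1

omit hdim hproj in
/-- The periods of a function. -/
lemma exists_period {K : Type*} [Field K] (f : ℤ → K) :
    ∃ p : ℕ, ∀ q : ℤ, IsPeriod f q ↔ (p : ℤ) ∣ q := by
  have hz : IsPeriod f 0 := fun x => by rw [add_zero]
  have ha : ∀ q r, IsPeriod f q → IsPeriod f r → IsPeriod f (q + r) := fun q r hq hr x => by
    rw [← add_assoc, hr, hq]
  have hn : ∀ q, IsPeriod f q → IsPeriod f (-q) := fun q hq x => by
    rw [← hq (x + -q), neg_add_cancel_right]
  let A : AddSubgroup ℤ :=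
    { carrier := {q | IsPeriod f q}
      add_mem' := fun {q r} hq hr => ha q r hq hr
      zero_mem' := hz
      neg_mem' := fun {q} hq => hn q hq }
  obtain ⟨a, h⟩ := Int.subgroup_cyclic A
  refine ⟨a.natAbs, fun q => ?_⟩
  rw [Int.natAbs_dvd, ← Int.mem_zmultiples_iff, AddSubgroup.zmultiples_eq_closure, ← h]
  exact Iff.rfl

omit hdim hproj in
lemma alike_weight {K : Type*} [Field K] {f : ℤ → K} {p : ℕ}
    (hp : ∀ q : ℤ, IsPeriod f q ↔ (p : ℤ) ∣ q) {n i j : ℕ} (hi : i ≤ 2 * n) (hj : j ≤ 2 * n) :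
    Alike (weightFun f) n i j ↔ i ≡ j [MOD p] := by
  rw [← Int.natCast_modEq_iff, Int.modEq_iff_dvd, ← hp]
  constructor
  · intro h x
    set e : ℤ := x - (i - n) with he
    rcases le_total 0 e with h0 | h0
    · have h1 := (h e.toNat e.toNat le_rfl).1
      simp only [weightFun] at h1
      have h2 : ((e.toNat : ℕ) : ℤ) = e := Int.toNat_of_nonneg h0
      push_cast at h1
      rw [h2] at h1
      rw [show x + ((j : ℤ) - i) = (j : ℤ) + 2 * e - (n + e) by rw [he]; ring, ← h1]
      congr 1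
      rw [he]; ring
    · have h1 := (h (-e).toNat 0 (Nat.zero_le _)).1
      simp only [weightFun] at h1
      have h2 : (((-e).toNat : ℕ) : ℤ) = -e := Int.toNat_of_nonneg (by omega)
      push_cast at h1
      rw [h2] at h1
      rw [show x + ((j : ℤ) - i) = (j : ℤ) + 0 - (n + -e) by rw [he]; ring, ← h1]
      congr 1
      rw [he]; ring
  · intro h m s _
    have h' : IsPeriod f ((i : ℤ) - j) := by
      rw [hp] at h ⊢
      have := (dvd_neg (a := (p : ℤ))).2 h
      rwa [neg_sub] at this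
    simp only [weightFun]
    constructor
    · rw [← h]
      congr 1
      push_cast
      ring
    · rw [← h']
      congr 1
      push_cast [Nat.cast_sub hi, Nat.cast_sub hj]
      ring

/-- The classification for the functions of the weight. -/
theorem weights {f : ℤ → W.K} {p : ℕ} (hp : ∀ q : ℤ, IsPeriod f q ↔ (p : ℤ) ∣ q) (n : ℕ) :
    ∃ M : ℕ, ∀ X : 𝒱.Obj, X.dim = n → List.TFAE [
      ∀ m ≤ M, OnProduct W P (weightFun f) X m,
      ∀ m, OnProduct W P (weightFun f) X m,
      KunnethMod W X p] := by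
  obtain ⟨M, hM⟩ := general hdim hproj (weightFun f) n
  refine ⟨M, fun X hX => ?_⟩
  have h1 := hM X hX
  subst hX
  have h2 : KunnethUpTo W X (Alike (weightFun f) X.dim) ↔ KunnethMod W X p := by
    unfold KunnethMod KunnethUpTo
    refine forall₂_congr fun i hi => ⟨fun h => h.congr fun j hj => ?_, fun h => h.congr
      fun j hj => ?_⟩
    · by_cases h3 : i ≡ j [MOD p]
      · rw [indic_of h3, indic_of ((alike_weight hp hi hj).2 h3)]
      · rw [indic_not h3, indic_not fun h4 => h3 ((alike_weight hp hi hj).1 h4)]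
    · by_cases h3 : i ≡ j [MOD p]
      · rw [indic_of (r := Alike (weightFun f) X.dim i) ((alike_weight hp hi hj).2 h3),
          indic_of (r := fun j => i ≡ j [MOD p]) h3]
      · rw [indic_not (r := Alike (weightFun f) X.dim i)
          fun h4 => h3 ((alike_weight hp hi hj).1 h4),
          indic_not (r := fun j => i ≡ j [MOD p]) h3]
  rwa [h2] at h1

end

end Pool.Agent.R370.NK
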